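import Pool.Agent.LE.StmtsA
import Pool.Agent.Helper58_Mob.Geo

/-! # FVD: comparison of a cube with a larger set (deterministic) -/

set_option autoImplicit false
set_option linter.unusedSectionVars false

open scoped BigOperators

noncomputable section

namespace Pool.Agent.LE.H46

open Pool.Agent.Anderson Pool.Agent.Loc Pool.Agent.Mob Pool.Agent.LE

variable {d : ℕ}

/-- the sum over the pairs of neighbours on both sides of the boundary of `A` -/
theorem sum_bd {A B : Finset (Site d)} (f g : Site d → ℝ) {c : ℝ} (hc : 0 ≤ c)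
    (h : ∀ u ∈ A, ∀ u' ∈ B, hop u u' ≠ 0 → |f u| * |g u'| ≤ c) :
    |∑ u ∈ A, ∑ u' ∈ B, f u * hop u u' * g u'| ≤ 2 * d * A.card * c := by
  have h1 : ∀ u ∈ A, ∀ u' ∈ B, |f u * hop u u' * g u'| ≤ hop u u' * c := by
    intro u hu u' hu'
    by_cases hh : hop u u' = 0
    · rw [hh]
      simp
    · have h2 := h u hu u' hu' hh
      have h3 := hop_nonneg u u'
      rw [abs_mul, abs_mul, abs_of_nonneg h3]
      calc |f u| * hop u u' * |g u'| = hop u u' * (|f u| * |g u'|) := by ring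
        _ ≤ hop u u' * c := mul_le_mul_of_nonneg_left h2 h3
  calc |∑ u ∈ A, ∑ u' ∈ B, f u * hop u u' * g u'|
      ≤ ∑ u ∈ A, |∑ u' ∈ B, f u * hop u u' * g u'| := Finset.abs_sum_le_sum_abs _ _
    _ ≤ ∑ u ∈ A, ∑ u' ∈ B, |f u * hop u u' * g u'| :=
        Finset.sum_le_sum fun u _ => Finset.abs_sum_le_sum_abs _ _
    _ ≤ ∑ u ∈ A, ∑ u' ∈ B, hop u u' * c :=
        Finset.sum_le_sum fun u hu => Finset.sum_le_sum fun u' hu' => h1 u hu u' hu'
    _ = ∑ u ∈ A, (∑ u' ∈ B, hop u u') * c := by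
        apply Finset.sum_congr rfl
        intro u _
        rw [Finset.sum_mul]
    _ ≤ ∑ _u ∈ A, (2 * d : ℝ) * c :=
        Finset.sum_le_sum fun u _ => mul_le_mul_of_nonneg_right (sum_hop_le u B) hc
    _ = 2 * d * A.card * c := by
        rw [Finset.sum_const, nsmul_eq_mul]
        ring

/-- FVD -/
theorem fvd : FvdStmt := by
  intro d V Λ s L E T a hT ha hΛ hdΛ hdA hTA hTΛ
  obtain ⟨A, hA⟩ : ∃ A, A = box s L := ⟨_, rfl⟩
  rw [← hA] at hdA hTA ⊢
  have hAΛ : A ⊆ Λ := by
    rw [hA]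
    exact (box_mono s (by omega)).trans hΛ
  have hcard : (A.card : ℝ) = (2 * L + 1) ^ d := by
    rw [hA, card_box]
    push_cast
    ring
  have hsA : s ∈ A := by
    rw [hA, mem_box, sd_self]
    omega
  have hmA : ∀ u, u ∈ A ↔ sd s u ≤ L := fun u => by rw [hA, mem_box]
  -- the pairs
  have hpair : ∀ u ∈ A, ∀ u' ∈ Λ \ A, hop u u' ≠ 0 → sd s u = L ∧ sd s u' = L + 1 := by
    intro u hu u' hu' hh
    rw [hmA] at hu
    rw [Finset.mem_sdiff, hmA] at hu'
    have h1 := sd_of_hop hh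
    have h2 := sd_triangle s u u'
    have h3 := hu'.2
    constructor <;> omega
  have hmem : ∀ u, (sd s u = L ∨ sd s u = L + 1) → u ∈ box s (L + 1) := by
    intro u hu
    rw [mem_box]
    omega
  have haT : 0 ≤ a * T := mul_nonneg ha hT
  have hbd : 2 * (d : ℝ) * A.card * (a * T) = 2 * d * (2 * L + 1) ^ d * T * a := by
    rw [hcard]
    ring
  have hfin : ∀ z : ℝ, z ≤ a + 2 * (d : ℝ) * A.card * (a * T) →
      z ≤ (1 + 2 * d * (2 * L + 1) ^ d * T) * a := by
    intro z hz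
    rw [hbd] at hz
    linarith
  constructor
  · intro h u hu
    have hsum : |∑ b ∈ A, ∑ b' ∈ Λ \ A, gr V A E s b * hop b b' * gr V Λ E b' u| ≤
        2 * d * A.card * (a * T) := by
      apply sum_bd (fun b => gr V A E s b) (fun b' => gr V Λ E b' u) haT
      intro b hb b' hb' hh
      obtain ⟨h1, h2⟩ := hpair b hb b' hb' hh
      exact mul_le_mul (h b h1) (hTΛ b' (hmem b' (Or.inr h2)) u (hmem u hu)) (abs_nonneg _) ha
    apply hfin
    by_cases huA : u ∈ A
    · have huL : sd s u = L := by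
        have := (hmA u).1 huA
        omega
      rw [Pool.Agent.Mob.H58.geo d V Λ A E hAΛ hdΛ hdA s hsA u huA]
      exact (abs_add_le _ _).trans (add_le_add (h u huL) hsum)
    · have huΛ : u ∈ Λ \ A := Finset.mem_sdiff.2 ⟨hΛ (hmem u hu), huA⟩
      rw [geo1 hAΛ hdΛ hdA hsA huΛ]
      linarith
  · intro h u hu
    have huA : u ∈ A := (hmA u).2 hu.le
    have hsum : |∑ b ∈ A, ∑ b' ∈ Λ \ A, gr V A E u b * hop b b' * gr V Λ E b' s| ≤
        2 * d * A.card * (a * T) := by
      apply sum_bd (fun b => gr V A E u b) (fun b' => gr V Λ E b' s) haT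
      intro b hb b' hb' hh
      obtain ⟨h1, h2⟩ := hpair b hb b' hb' hh
      have h3 := h b' (Or.inr h2)
      rw [gr_symm] at h3
      calc |gr V A E u b| * |gr V Λ E b' s| ≤ T * a :=
            mul_le_mul (hTA u b) h3 (abs_nonneg _) hT
        _ = a * T := by ring
    apply hfin
    have h4 := Pool.Agent.Mob.H58.geo d V Λ A E hAΛ hdΛ hdA u huA s hsA
    have h5 : gr V A E s u = gr V Λ E s u -
        ∑ b ∈ A, ∑ b' ∈ Λ \ A, gr V A E u b * hop b b' * gr V Λ E b' s := by
      rw [gr_symm V A E s u, gr_symm V Λ E s u, h4]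
      ring
    rw [h5]
    exact (abs_sub _ _).trans (add_le_add (h u (Or.inl hu)) hsum)

end Pool.Agent.LE.H46
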