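import Pool.Agent.LE.StmtsA

/-! # GEV, the chaining piece: the Green function near the sites of a grid is not too small -/

set_option autoImplicit false
set_option linter.unusedSectionVars false

open MeasureTheory ProbabilityTheory Function

open scoped ENNReal BigOperators

noncomputable section

namespace Pool.Agent.LE.H46

open Pool.Agent.Anderson Pool.Agent.Loc Pool.Agent.Mob Pool.Agent.Helper54.Bal Pool.Agent.LE

/-- the numbers -/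
theorem gevC_num (d : ℕ) (C κ₃ p : ℝ) (hd : 1 ≤ d) (hC : 0 ≤ C) (h3 : 0 < κ₃) (hp : 0 < p) :
    ∃ Q₀ : ℕ, 2 ≤ Q₀ ∧ ∀ Q : ℕ, Q₀ ≤ Q →
      (20 * (Q : ℝ) + 1) ^ d * (C * (3 / (κ₃ * Q)) ^ (4 * d)) ≤ p := by
  obtain ⟨K, hK⟩ : ∃ K, K = C * (1701 / κ₃ ^ 4) ^ d := ⟨_, rfl⟩
  have hK0 : 0 ≤ K := by rw [hK]; positivity
  obtain ⟨n, hn⟩ := exists_nat_ge (K / p)
  refine ⟨max 2 n, le_max_left _ _, fun Q hQ => ?_⟩
  have hQ2 : 2 ≤ Q := (le_max_left _ _).trans hQ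
  have hQn : n ≤ Q := (le_max_right _ _).trans hQ
  have hQ1 : (1 : ℝ) ≤ Q := by
    have : 1 ≤ Q := by omega
    exact_mod_cast this
  have hQ0 : (0 : ℝ) < Q := by linarith
  have h1 : (20 * (Q : ℝ) + 1) ^ d ≤ (21 * (Q : ℝ)) ^ d := by
    apply pow_le_pow_left₀ (by positivity)
    linarith
  have h2 : (21 * (Q : ℝ)) ^ d * (C * (3 / (κ₃ * Q)) ^ (4 * d)) = K * (1 / (Q : ℝ) ^ 3) ^ d := by
    have e : 21 * (Q : ℝ) * (3 / (κ₃ * Q)) ^ 4 = 1701 / κ₃ ^ 4 * (1 / (Q : ℝ) ^ 3) := by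
      field_simp
      norm_num
    rw [hK, pow_mul, mul_left_comm, ← mul_pow, e, mul_pow, mul_assoc]
  have h3' : (1 / (Q : ℝ) ^ 3) ^ d ≤ 1 / Q := by
    have e1 : 1 / (Q : ℝ) ^ 3 ≤ 1 / Q := by
      apply one_div_le_one_div_of_le hQ0
      calc (Q : ℝ) = Q ^ 1 := (pow_one _).symm
        _ ≤ Q ^ 3 := pow_le_pow_right₀ hQ1 (by norm_num)
    have e2 : 1 / (Q : ℝ) ^ 3 ≤ 1 := by
      apply e1.trans
      rw [div_le_one hQ0]
      exact hQ1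
    calc (1 / (Q : ℝ) ^ 3) ^ d ≤ (1 / (Q : ℝ) ^ 3) ^ 1 :=
          pow_le_pow_of_le_one (by positivity) e2 hd
      _ = 1 / (Q : ℝ) ^ 3 := pow_one _
      _ ≤ 1 / Q := e1
  calc (20 * (Q : ℝ) + 1) ^ d * (C * (3 / (κ₃ * Q)) ^ (4 * d))
      ≤ (21 * (Q : ℝ)) ^ d * (C * (3 / (κ₃ * Q)) ^ (4 * d)) :=
        mul_le_mul_of_nonneg_right h1 (by positivity)
    _ = K * (1 / (Q : ℝ) ^ 3) ^ d := h2
    _ ≤ K * (1 / Q) := mul_le_mul_of_nonneg_left h3' hK0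
    _ = K / Q := by ring
    _ ≤ p := by
        rw [div_le_iff₀ hQ0]
        have e3 : K / p ≤ Q := hn.trans (by exact_mod_cast hQn)
        rw [div_le_iff₀ hp] at e3
        linarith [mul_comm (Q : ℝ) p]

/-- the chaining piece of GEV -/
theorem gevChain {d : ℕ} {σ E C : ℝ} (hd : 1 ≤ d) (h : ChnTail d (gl σ) E C) (κ₃ p : ℝ)
    (h3 : 0 < κ₃) (hp : 0 < p) : ∃ Q₀ : ℕ, 2 ≤ Q₀ ∧ ∀ Q : ℕ, Q₀ ≤ Q → ∀ (ℓ N : ℕ) (a : Site d),
    1 ≤ ℓ → box a (12 * (Q * ℓ)) ⊆ box 0 N →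
      PP d (gl σ) {V | ¬ ∀ k ∈ box (0 : Site d) (10 * Q), ∀ y ∈ box (a + sm ℓ k) (3 * ℓ),
        DL (box 0 N) E V (a + sm ℓ k) y ≤ κ₃ * (Q * ℓ)} ≤ ENNReal.ofReal p := by
  obtain ⟨Q₀, hQ₀, hnum⟩ := gevC_num d |C| κ₃ p hd (abs_nonneg C) h3 hp
  refine ⟨Q₀, hQ₀, fun Q hQ ℓ N a hℓ hbox => ?_⟩
  have hQ1 : (0 : ℝ) < Q := by
    have : 0 < Q := by omega
    exact_mod_cast this
  have hℓ1 : (0 : ℝ) < ℓ := by exact_mod_cast hℓ
  obtain ⟨t, ht⟩ : ∃ t, t = κ₃ * (Q * ℓ) := ⟨_, rfl⟩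
  have ht0 : 0 < t := by rw [ht]; positivity
  rw [← ht]
  obtain ⟨S, hS⟩ : ∃ S : Site d → Set (Site d → ℝ), S = fun k =>
    {V | ∃ s ∈ box (a + sm ℓ k) (3 * ℓ), |gr V (box 0 N) E (a + sm ℓ k) s| < Real.exp (-t)} :=
    ⟨_, rfl⟩
  have hsub : {V : Site d → ℝ | ¬ ∀ k ∈ box (0 : Site d) (10 * Q),
      ∀ y ∈ box (a + sm ℓ k) (3 * ℓ), DL (box 0 N) E V (a + sm ℓ k) y ≤ t} ⊆
      ⋃ k ∈ box (0 : Site d) (10 * Q), S k := by
    intro V hV
    rw [Set.mem_ofPred_eq] at hV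
    simp only [not_forall] at hV
    obtain ⟨k, hk, y, hy, hDL⟩ := hV
    rw [not_le] at hDL
    rw [Set.mem_iUnion₂]
    refine ⟨k, hk, ?_⟩
    rw [hS]
    refine ⟨y, hy, ?_⟩
    unfold DL at hDL
    by_cases h0 : gr V (box 0 N) E (a + sm ℓ k) y = 0
    · rw [h0, abs_zero, Real.log_zero, neg_zero] at hDL
      linarith
    · rw [← Real.log_lt_iff_lt_exp (abs_pos.2 h0)]
      linarith
  have hprob : ∀ k ∈ box (0 : Site d) (10 * Q), PP d (gl σ) (S k) ≤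
      ENNReal.ofReal (|C| * (3 / (κ₃ * Q)) ^ (4 * d)) := by
    intro k hk
    have hloc : Pool.Agent.Mob.H75.Loc (S k) (box (0 : Site d) N) := by
      intro V V' hVV
      have e : gr V (box 0 N) E = gr V' (box 0 N) E := by
        funext x y
        rw [gr_congr hVV]
      rw [hS, Set.mem_ofPred_eq, Set.mem_ofPred_eq, e]
    refine (Pool.Agent.Mob.H75.PP_le_PL hloc).trans ?_
    have hc : box (a + sm ℓ k) (3 * ℓ) ⊆ box 0 N := by
      refine subset_trans ?_ hbox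
      intro y hy
      rw [mem_box] at hy hk ⊢
      have h1 : sd a (a + sm ℓ k) ≤ 10 * Q * ℓ := by
        rw [sd_le_iff] at hk ⊢
        intro j
        have h2 := hk j
        have h4 : a j - (a + sm ℓ k) j = -((ℓ : ℤ) * k j) := by
          rw [Pi.add_apply]
          unfold sm
          ring
        rw [h4, abs_neg, abs_mul, Nat.abs_cast]
        rw [Pi.zero_apply, zero_sub, abs_neg] at h2
        push_cast at h2 ⊢
        have h5 : (ℓ : ℤ) * |k j| ≤ ℓ * (10 * Q) := mul_le_mul_of_nonneg_left h2 (by positivity)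
        linarith [mul_comm (ℓ : ℤ) (10 * Q)]
      have h6 := sd_triangle a (a + sm ℓ k) y
      have h7 : 2 * ℓ ≤ Q * ℓ := Nat.mul_le_mul_right ℓ (hQ₀.trans hQ)
      have h8 : 10 * Q * ℓ = 10 * (Q * ℓ) := by ring
      omega
    have h1 := h N (3 * ℓ) (a + sm ℓ k) t (by omega) hc ht0
    rw [hS]
    refine h1.trans (ENNReal.ofReal_le_ofReal ?_)
    have h2 : ((3 * ℓ : ℕ) : ℝ) / t = 3 / (κ₃ * Q) := by
      rw [ht]
      push_cast
      field_simp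
    rw [h2]
    exact mul_le_mul_of_nonneg_right (le_abs_self C) (by positivity)
  have hcard : ((box (0 : Site d) (10 * Q)).card : ℝ) = (20 * (Q : ℝ) + 1) ^ d := by
    rw [card_box]
    push_cast
    ring
  calc PP d (gl σ) _ ≤ PP d (gl σ) (⋃ k ∈ box (0 : Site d) (10 * Q), S k) := measure_mono hsub
    _ ≤ ∑ k ∈ box (0 : Site d) (10 * Q), PP d (gl σ) (S k) := measure_biUnion_finset_le _ _
    _ ≤ ∑ _k ∈ box (0 : Site d) (10 * Q), ENNReal.ofReal (|C| * (3 / (κ₃ * Q)) ^ (4 * d)) :=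
        Finset.sum_le_sum hprob
    _ = ENNReal.ofReal ((20 * (Q : ℝ) + 1) ^ d * (|C| * (3 / (κ₃ * Q)) ^ (4 * d))) := by
        rw [Finset.sum_const, nsmul_eq_mul, ← hcard, ENNReal.ofReal_mul (Nat.cast_nonneg _),
          ENNReal.ofReal_natCast]
    _ ≤ ENNReal.ofReal p := ENNReal.ofReal_le_ofReal (hnum Q hQ)

end Pool.Agent.LE.H46
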